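import Mathlib
import Pool.Agent.V11112.BM5

/-!
# Invariant measures of full Minkowski dimension on Bedford-McMullen carpets

Definitions used in the statement (all from `Pool.Agent.V11112.BM*`):

* `Plane` is `EuclideanSpace ℝ (Fin 2)`;
* `contr m n (i,j)` is the map `(x,y) ↦ ((x+i)/m, (y+j)/n)`;
* `compo m n ω k` is `f_{ω 0} ∘ ⋯ ∘ f_{ω (k-1)}`;
* `code m n D ω` is the limit of `compo m n ω k 0` (the coding map `π`);
* `IsCarpet m n D Λ`: `Λ` is nonempty, compact and `Λ = ⋃_{d ∈ D} f_d(Λ)`;
* `shift` is the left shift on `D^ℕ`;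
* `minkDim μ` is the infimum of the `s ≥ 0` for which some `C > 0` satisfies
  `μ(B(x,r)) ≥ C r^s` for all `x ∈ supp μ` and `0 < r ≤ 1`;
* `coverNum E r` is the least number of closed balls of radius `r` covering `E`, and
  `HasBoxDim E d` says that `log (coverNum E r) / log (1/r) → d` as `r → 0+`.
-/

open MeasureTheory Set Filter Topology Pool.Agent.V11112.BM

namespace Pool.Agent.Results.MP_4f9d30_an.FullMinkowski

/-- Every Bedford-McMullen carpet supports a shift-invariant measure whose Minkowski dimension is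
the box-counting dimension of the carpet. -/
theorem result (m n : ℕ) (hm : 2 ≤ m) (hmn : m < n) (D : Finset (ℕ × ℕ))
    (hD : ∀ d ∈ D, d.1 < m ∧ d.2 < n) (hcard : 2 ≤ D.card) (Λ : Set Plane)
    (hΛ : IsCarpet m n D Λ) :
    ∃ ν : Measure (ℕ → D), IsProbabilityMeasure ν ∧ MeasurePreserving shift ν ν ∧
      (ν.map (code m n D)).support = Λ ∧
      (∀ ω : ℕ → D, Tendsto (fun k => compo m n (fun t => (ω t : ℕ × ℕ)) k 0) atTop
        (𝓝 (code m n D ω))) ∧
      HasBoxDim Λ (minkDim (ν.map (code m n D))) ∧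
      minkDim (ν.map (code m n D)) =
        Real.log (D.image Prod.fst).card / Real.log m +
          Real.log ((D.card : ℝ) / (D.image Prod.fst).card) / Real.log n := by
  have hn : 2 ≤ n := by omega
  haveI : Nonempty D := by
    have : D.Nonempty := Finset.card_pos.1 (by omega)
    exact this.to_subtype
  have hrange := carpet_eq hm hn hD hΛ
  have hcl : IsClosed (range (code m n D)) := by
    rw [← hrange]; exact hΛ.2.1.isClosed
  have hMc : Mc D = (D.image Prod.fst).card := by
    unfold Mc colD
    congr 1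
    ext i
    simp
  refine ⟨nu (colD D) (Nat.clog m n), ⟨nu_univ _ _ (clog_pos hm hmn)⟩, nu_shift _ _, ?_, ?_, ?_, ?_⟩
  · rw [hrange]
    apply Subset.antisymm (mu_support hm hmn hD hcl)
    rintro _ ⟨ω, rfl⟩
    exact mu_pos hm hmn hD ω
  · intro ω
    rw [code_eq hm hn hD]
    exact tendsto_compo hm hn (fun t => (hD _ (ω t).2).1) (fun t => (hD _ (ω t).2).2)
  · have h1 := minkDim_mu hm hmn hD hcl
    unfold mu at h1
    rw [h1, hrange]
    exact hasBoxDim_range hm hmn hD
  · have h1 := minkDim_mu hm hmn hD hcl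
    unfold mu at h1
    rw [h1, sdim, hMc]
    rfl

end Pool.Agent.Results.MP_4f9d30_an.FullMinkowski
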